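import Pool.Agent.N728.QG.Def
import Pool.Agent.N835.QL.U1

set_option autoImplicit false

/-! # Project QG, piece U1: upper bound sieve in a box with two rough variables, exponent `D` (helper547)
Adapted from `Pool/Agent/N835/QL/U1.lean`. -/

namespace Pool.Agent.N547.QG

open Finset Pool.Agent.N728.QL Pool.Agent.N728.QG Pool.Agent.N835.QL

noncomputable section

/-- U1 -/
theorem t_U1 (h1 : Pool.Agent.N728.QL.S_FLC) (_h2 : S_MER) :
    ∀ c : ℤ, c ≠ 0 → Pool.Agent.N728.QG.S_U1 c := by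
  intro c hc D hD
  obtain ⟨K, -, hF⟩ := h1
  have hub := ub hF
  have hrc : ∀ {w y z1 : ℕ}, 2 ≤ z1 → y ≤ z1 → ∀ N : ℕ, _ := fun {w y z1} h h' N =>
    rough_count hub (w := w) h h' N
  have hca : c.natAbs ≠ 0 := Int.natAbs_ne_zero.2 hc
  have hGc : 0 < G c.natAbs := lt_of_lt_of_le one_pos (one_le_G hca)
  refine ⟨24 * G c.natAbs + 1, by positivity, D * (K * K + 3), 1, ?_⟩
  intro B hB z hz hzB w y M X I1 I2 hw hwy hyB hMB hM hX hX2 hI hIB hI2
  have hcast : ∀ x t : ℕ, ((M * x * t : ℕ) : ℤ) + c = (M : ℤ) * x * t + c := by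
    intro x t
    push_cast
    ring
  simp only [hcast]
  have hrg0 : ∀ n : ℤ, 0 ≤ rg w y n := by
    intro n; unfold rg; split_ifs <;> norm_num
  have hrg1 : ∀ n : ℤ, rg w y n ≤ 1 := by
    intro n; unfold rg; split_ifs <;> norm_num
  set z1 := max z y with hz1
  have hzz : z ≤ z1 := le_max_left _ _
  have hyz : y ≤ z1 := le_max_right _ _
  have hz1B : z1 ^ (D * (K * K + 3)) ≤ B := by
    rcases max_cases z y with h | h
    · rw [hz1, h.1]; exact hzB
    · rw [hz1, h.1]; exact hyB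
  have hM0 : M ≠ 0 := by
    rintro rfl
    have h3 := Nat.eq_zero_of_zero_dvd hM
    unfold PP at h3
    rw [prod_eq_zero_iff] at h3
    obtain ⟨p, hp, h4⟩ := h3
    have := (mem_filter.1 hp).2.pos
    omega
  have hroot : ∀ {Y : ℕ}, B ≤ Y ^ D → z1 ^ (K * K + 3) ≤ Y := by
    intro Y hY
    have h3 : (z1 ^ (K * K + 3)) ^ D ≤ Y ^ D := by
      rw [← pow_mul, mul_comm]
      exact hz1B.trans hY
    exact (Nat.pow_le_pow_iff_left (by omega)).1 h3
  have hXr := hroot hX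
  have hIr := hroot hIB
  have hy1 : 1 ≤ y := by omega
  have hV := Pool.Agent.N728.QL.VW_pos w y
  have hVi := inv_le_VW w hy1
  have hGM : 1 ≤ G M := one_le_G hM0
  have hI' : (0 : ℝ) ≤ (I2 : ℝ) - I1 := by
    have : (I1 : ℝ) ≤ I2 := by exact_mod_cast hI
    linarith
  -- the sum over `x`
  have hx : ∀ x ∈ Icc 1 X, ∑ t ∈ Ioc I1 I2, rg w y x * rg w y t * lz z ((M : ℤ) * x * t + c) ≤
      2 * (((I2 : ℝ) - I1) * (VW w y * G M * G c.natAbs)) * (rg w y x * G x) +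
        z * (z1 : ℝ) ^ (K * K) := by
    intro x hx
    rw [mem_Icc] at hx
    have h3 := fixed_x (w := w) hub hc hz hzz hyz (N := M * x) (Nat.mul_ne_zero hM0 (by omega)) hI
    have h4 : ∑ t ∈ Ioc I1 I2, rg w y x * rg w y t * lz z ((M : ℤ) * x * t + c) =
        rg w y x * ∑ t ∈ Ioc I1 I2, rg w y t * lz z (((M * x : ℕ) : ℤ) * t + c) := by
      rw [mul_sum]
      refine sum_congr rfl fun t _ => ?_
      push_cast
      ring
    rw [h4]
    refine (mul_le_mul_of_nonneg_left h3 (hrg0 x)).trans ?_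
    rw [mul_add]
    have h5 : rg w y x * (z * (z1 : ℝ) ^ (K * K)) ≤ z * (z1 : ℝ) ^ (K * K) :=
      mul_le_of_le_one_left (by positivity) (hrg1 x)
    have h6 := G_mul_le hM0 (b := x) (by omega)
    have h7 : 2 * (((I2 : ℝ) - I1) * (VW w y * G (M * x) * G c.natAbs)) ≤
        2 * (((I2 : ℝ) - I1) * (VW w y * (G M * G x) * G c.natAbs)) := by
      have : VW w y * G (M * x) * G c.natAbs ≤ VW w y * (G M * G x) * G c.natAbs :=
        mul_le_mul_of_nonneg_right (mul_le_mul_of_nonneg_left h6 hV.le) hGc.le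
      have := mul_le_mul_of_nonneg_left this hI'
      linarith
    have h8 := mul_le_mul_of_nonneg_left h7 (hrg0 x)
    refine (add_le_add h8 h5).trans (le_of_eq ?_)
    ring
  refine (sum_le_sum hx).trans ?_
  rw [sum_add_distrib, ← mul_sum, sum_const, Nat.card_Icc, Nat.add_sub_cancel, nsmul_eq_mul]
  have hG := sum_G_le (K := K) hrc (w := w) hy1 (by omega : 2 ≤ z1) hyz hXr
  have hcoef : 0 ≤ 2 * (((I2 : ℝ) - I1) * (VW w y * G M * G c.natAbs)) := by
    have : 0 ≤ VW w y * G M * G c.natAbs := by positivity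
    positivity
  have hA := mul_le_mul_of_nonneg_left hG hcoef
  -- the error term
  have hz0 : (0 : ℝ) < z1 := by exact_mod_cast (by omega : 0 < z1)
  have hy0 : (0 : ℝ) < y := by exact_mod_cast hy1
  have hE : z * (z1 : ℝ) ^ (K * K) ≤ VW w y ^ 2 * ((I2 : ℝ) - I1) := by
    have h3 : (z1 : ℝ) ^ (K * K + 3) ≤ (I2 : ℝ) - I1 := by
      have h4 : ((z1 ^ (K * K + 3) : ℕ) : ℝ) ≤ ((I2 - I1 : ℕ) : ℝ) := by exact_mod_cast hIr
      rw [Nat.cast_sub hI] at h4
      exact_mod_cast h4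
    have h5 : (z : ℝ) ≤ z1 := by exact_mod_cast hzz
    have h6 : (y : ℝ) ≤ z1 := by exact_mod_cast hyz
    have h7 : (1 / (y : ℝ)) ^ 2 ≤ VW w y ^ 2 := pow_le_pow_left₀ (by positivity) hVi 2
    have h8 : z * (z1 : ℝ) ^ (K * K) * (y : ℝ) ^ 2 ≤ (I2 : ℝ) - I1 := by
      refine le_trans ?_ h3
      have e : (z1 : ℝ) ^ (K * K + 3) = z1 * (z1 : ℝ) ^ (K * K) * (z1 : ℝ) ^ 2 := by ring
      rw [e]
      refine mul_le_mul (mul_le_mul_of_nonneg_right h5 (by positivity))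
        (pow_le_pow_left₀ hy0.le h6 2) (by positivity) (by positivity)
    have h9 : z * (z1 : ℝ) ^ (K * K) = (1 / (y : ℝ)) ^ 2 * (z * (z1 : ℝ) ^ (K * K) * (y : ℝ) ^ 2) := by
      field_simp
    rw [h9]
    exact mul_le_mul h7 h8 (by positivity) (by positivity)
  have hX0 : (0 : ℝ) ≤ X := by positivity
  have hB1 := mul_le_mul_of_nonneg_left hE hX0
  have hfin1 : 2 * (((I2 : ℝ) - I1) * (VW w y * G M * G c.natAbs)) * (12 * (VW w y * X)) =
      24 * G c.natAbs * G M * VW w y ^ 2 * ((X : ℝ) * ((I2 : ℝ) - I1)) := by ring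
  rw [hfin1] at hA
  have hfin2 : (X : ℝ) * (VW w y ^ 2 * ((I2 : ℝ) - I1)) ≤
      G M * VW w y ^ 2 * ((X : ℝ) * ((I2 : ℝ) - I1)) := by
    have h3 : 0 ≤ VW w y ^ 2 * ((X : ℝ) * ((I2 : ℝ) - I1)) := by positivity
    have h4 := mul_le_mul_of_nonneg_right hGM h3
    linarith [h4]
  have hGdef : (M : ℝ) / Nat.totient M = G M := rfl
  rw [hGdef]
  have hfin3 : (24 * G c.natAbs + 1) * G M * VW w y ^ 2 * ((X : ℝ) * ((I2 : ℝ) - I1)) =
      24 * G c.natAbs * G M * VW w y ^ 2 * ((X : ℝ) * ((I2 : ℝ) - I1)) +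
        G M * VW w y ^ 2 * ((X : ℝ) * ((I2 : ℝ) - I1)) := by ring
  rw [hfin3]
  linarith

end

end Pool.Agent.N547.QG
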