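import Pool.Agent.N728.QG.Def
import Pool.Agent.N835.QL.U1
import Pool.Agent.N383.QL.U0

set_option autoImplicit false

/-! # Project QG, piece UU: the upper bounds for the weight one (helper547) -/

namespace Pool.Agent.N547.QG

open Finset Pool.Agent.N728.QL Pool.Agent.N728.QG

noncomputable section

open Classical in
/-- the number of rough integers in an interval -/
theorem rough_ivl {K : ℕ} (hub : ∀ (z1 : ℕ) (Om : ℕ → Finset ℕ) (J1 J2 : ℕ) (S : Finset ℕ), 2 ≤ z1 →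
    (∀ p : ℕ, p.Prime → p ≤ z1 → Om p ⊆ range p ∧ (Om p).card ≤ 8) → J1 ≤ J2 →
    S ⊆ Ioc J1 J2 → (∀ t ∈ S, ∀ p : ℕ, p.Prime → p ≤ z1 → t % p ∉ Om p) →
    (S.card : ℝ) ≤ 2 * (((J2 : ℝ) - J1) *
      ∏ p ∈ (Ioc 0 z1).filter Nat.Prime, (1 - ((Om p).card : ℝ) / p)) + (z1 : ℝ) ^ (K * K))
    {w y z1 : ℕ} (hz1 : 2 ≤ z1) (hy : y ≤ z1) (I1 I2 : ℕ) (hI : I1 ≤ I2) :
    ∑ t ∈ Ioc I1 I2, rg w y (t : ℤ) ≤ 2 * (((I2 : ℝ) - I1) * VW w y) + (z1 : ℝ) ^ (K * K) := by
  have e1 : ∑ t ∈ Ioc I1 I2, rg w y (t : ℤ) =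
      (((Ioc I1 I2).filter (fun x : ℕ => Rg w y x)).card : ℝ) := by
    rw [card_filter]
    push_cast
    refine sum_congr rfl fun t _ => ?_
    unfold rg
    split_ifs <;> rfl
  rw [e1]
  have h := hub z1 (fun p => if w < p ∧ p ≤ y then {0} else ∅) I1 I2
    ((Ioc I1 I2).filter (fun x : ℕ => Rg w y x)) hz1 ?_ hI (filter_subset _ _) ?_
  · refine h.trans (le_of_eq ?_)
    rw [Pool.Agent.N835.QL.VW_eq w y z1 hy]
    congr 3
    refine prod_congr rfl fun p _ => ?_
    split_ifs <;> simp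
  · intro p hp _
    split_ifs
    · refine ⟨?_, by simp⟩
      rw [singleton_subset_iff, mem_range]
      exact hp.pos
    · simp
  · intro t ht p hp hpz
    have h1 := (mem_filter.1 ht).2
    split_ifs with h2
    · rw [mem_singleton]
      intro h3
      refine h1 p hp h2.1 h2.2 ?_
      exact_mod_cast Nat.dvd_of_mod_eq_zero h3
    · exact notMem_empty _

theorem t_UU (h1 : Pool.Agent.N728.QL.S_FLC) (_h2 : S_MER) : S_UU := by
  intro D hD
  obtain ⟨K, -, hF⟩ := h1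
  have hub := Pool.Agent.N835.QL.ub hF
  refine ⟨9, by norm_num, D * (K * K + 1), 2 ^ (D * (K * K + 1)), ?_⟩
  intro B hB
  constructor
  · -- boxes with divisibility
    intro d1 d2 X1 X2 I1 I2 hd1 hd2 hd1k hd2k hX hBX _ hI hBI _
    have key : ∀ d a b : ℕ, 1 ≤ d → d ^ (D * (K * K + 1)) ≤ B → a ≤ b → B ≤ (b - a) ^ D →
        (((Ioc a b).filter (fun u => d ∣ u)).card : ℝ) ≤ 2 * ((b : ℝ) - a) / Nat.totient d := by
      intro d a b hd hdk hab hBab
      have e1 := Pool.Agent.N383.QL.card_mult a b d hd hab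
      have e2 : d ≤ b - a := by
        have e3 : d ^ D ≤ (b - a) ^ D := by
          refine le_trans ?_ (hdk.trans hBab)
          exact Nat.pow_le_pow_right hd (Nat.le_mul_of_pos_right _ (by positivity))
        exact (Nat.pow_le_pow_iff_left (by omega)).1 e3
      have e3 : (d : ℝ) ≤ (b : ℝ) - a := by
        rw [← Nat.cast_sub hab]
        exact_mod_cast e2
      have hd0 : (0 : ℝ) < d := by exact_mod_cast hd
      have e4 : 1 ≤ ((b : ℝ) - a) / d := by
        rw [one_le_div hd0]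
        exact e3
      have e5 : (0 : ℝ) < Nat.totient d := by exact_mod_cast Nat.totient_pos.2 hd
      have e6 : (Nat.totient d : ℝ) ≤ d := by exact_mod_cast Nat.totient_le d
      calc (((Ioc a b).filter (fun u => d ∣ u)).card : ℝ) ≤ 2 * ((b : ℝ) - a) / d := by
            rw [mul_div_assoc]
            linarith
        _ ≤ _ := div_le_div_of_nonneg_left (by linarith) e5 e6
    have k1 := key d1 X1 X2 hd1 hd1k hX hBX
    have k2 := key d2 I1 I2 hd2 hd2k hI hBI
    have e1 : ∑ u ∈ (Ioc X1 X2).filter (fun u => d1 ∣ u),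
        ∑ v ∈ (Ioc I1 I2).filter (fun v => d2 ∣ v), (fun _ : ℕ => (1 : ℝ)) (u * v) =
        (((Ioc X1 X2).filter (fun u => d1 ∣ u)).card : ℝ) *
          (((Ioc I1 I2).filter (fun v => d2 ∣ v)).card : ℝ) := by
      simp only [sum_const, nsmul_eq_mul, mul_one]
    rw [e1]
    have hLX : (0 : ℝ) ≤ (X2 : ℝ) - X1 := by
      have : (X1 : ℝ) ≤ X2 := by exact_mod_cast hX
      linarith
    have hLI : (0 : ℝ) ≤ (I2 : ℝ) - I1 := by
      have : (I1 : ℝ) ≤ I2 := by exact_mod_cast hI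
      linarith
    have hφ1 : (0 : ℝ) < Nat.totient d1 := by exact_mod_cast Nat.totient_pos.2 hd1
    have hφ2 : (0 : ℝ) < Nat.totient d2 := by exact_mod_cast Nat.totient_pos.2 hd2
    calc (((Ioc X1 X2).filter (fun u => d1 ∣ u)).card : ℝ) *
          (((Ioc I1 I2).filter (fun v => d2 ∣ v)).card : ℝ) ≤
          (2 * ((X2 : ℝ) - X1) / Nat.totient d1) * (2 * ((I2 : ℝ) - I1) / Nat.totient d2) :=
          mul_le_mul k1 k2 (Nat.cast_nonneg _) (by positivity)
      _ = 4 * (((X2 : ℝ) - X1) * ((I2 : ℝ) - I1)) / ((Nat.totient d1 : ℝ) * Nat.totient d2) := by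
          field_simp
          ring
      _ ≤ _ := by
          gcongr
          norm_num
  · -- rough variables
    intro w y M X I1 I2 hw hwy hyB hMB hM hX _ hI hIB _
    set z1 := max 2 y with hz1
    have hz2 : 2 ≤ z1 := le_max_left _ _
    have hyz : y ≤ z1 := le_max_right _ _
    have hz1B : z1 ^ (D * (K * K + 1)) ≤ B := by
      rcases max_cases 2 y with h | h
      · rw [hz1, h.1]; exact hB
      · rw [hz1, h.1]; exact hyB
    have hM0 : M ≠ 0 := by
      rintro rfl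
      have h3 := Nat.eq_zero_of_zero_dvd hM
      unfold PP at h3
      rw [prod_eq_zero_iff] at h3
      obtain ⟨p, hp, h4⟩ := h3
      have := (mem_filter.1 hp).2.pos
      omega
    have hy1 : 1 ≤ y := by omega
    have hV := Pool.Agent.N835.QL.VW_pos w y
    have hVi := Pool.Agent.N835.QL.inv_le_VW w hy1
    have hGM : 1 ≤ (M : ℝ) / Nat.totient M := Pool.Agent.N835.QL.one_le_G hM0
    have hrg0 : ∀ n : ℤ, 0 ≤ rg w y n := by
      intro n; unfold rg; split_ifs <;> norm_num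
    have key : ∀ a b : ℕ, a ≤ b → B ≤ (b - a) ^ D →
        ∑ t ∈ Ioc a b, rg w y (t : ℤ) ≤ 3 * (((b : ℝ) - a) * VW w y) := by
      intro a b hab hBab
      have e1 := rough_ivl hub (w := w) hz2 hyz a b hab
      have e2 : z1 ^ (K * K + 1) ≤ b - a := by
        have h3 : (z1 ^ (K * K + 1)) ^ D ≤ (b - a) ^ D := by
          rw [← pow_mul, mul_comm]
          exact hz1B.trans hBab
        exact (Nat.pow_le_pow_iff_left (by omega)).1 h3
      have e3 : (z1 : ℝ) ^ (K * K + 1) ≤ (b : ℝ) - a := by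
        rw [← Nat.cast_sub hab]
        exact_mod_cast e2
      have hy0 : (0 : ℝ) < y := by exact_mod_cast hy1
      have hyz' : (y : ℝ) ≤ z1 := by exact_mod_cast hyz
      have e4 : (z1 : ℝ) ^ (K * K) ≤ ((b : ℝ) - a) * VW w y := by
        have h4 : (z1 : ℝ) ^ (K * K) * y ≤ (b : ℝ) - a := by
          refine le_trans ?_ e3
          rw [pow_succ]
          exact mul_le_mul_of_nonneg_left hyz' (by positivity)
        calc (z1 : ℝ) ^ (K * K) = ((z1 : ℝ) ^ (K * K) * y) * (1 / (y : ℝ)) := by field_simp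
          _ ≤ ((b : ℝ) - a) * VW w y :=
            mul_le_mul h4 hVi (by positivity) (le_trans (by positivity) h4)
      linarith
    have k1 : ∑ x ∈ Icc 1 X, rg w y (x : ℤ) ≤ 3 * ((X : ℝ) * VW w y) := by
      have h3 := key 0 X (Nat.zero_le _) (by simpa using hX)
      have h4 : Icc 1 X = Ioc 0 X := by
        ext x
        simp only [mem_Icc, mem_Ioc]
        omega
      rw [h4]
      simpa using h3
    have k2 := key I1 I2 hI hIB
    have e1 : ∑ x ∈ Icc 1 X, ∑ t ∈ Ioc I1 I2,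
        rg w y x * rg w y t * (fun _ : ℕ => (1 : ℝ)) (M * x * t) =
        (∑ x ∈ Icc 1 X, rg w y (x : ℤ)) * ∑ t ∈ Ioc I1 I2, rg w y (t : ℤ) := by
      rw [sum_mul_sum]
      simp only [mul_one]
    rw [e1]
    have hI' : (0 : ℝ) ≤ (I2 : ℝ) - I1 := by
      have : (I1 : ℝ) ≤ I2 := by exact_mod_cast hI
      linarith
    have h0 : 0 ≤ ∑ t ∈ Ioc I1 I2, rg w y (t : ℤ) := sum_nonneg fun t _ => hrg0 _
    calc (∑ x ∈ Icc 1 X, rg w y (x : ℤ)) * ∑ t ∈ Ioc I1 I2, rg w y (t : ℤ) ≤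
        (3 * ((X : ℝ) * VW w y)) * (3 * (((I2 : ℝ) - I1) * VW w y)) :=
          mul_le_mul k1 k2 h0 (by positivity)
      _ = 9 * 1 * VW w y ^ 2 * ((X : ℝ) * ((I2 : ℝ) - I1)) := by ring
      _ ≤ 9 * ((M : ℝ) / Nat.totient M) * VW w y ^ 2 * ((X : ℝ) * ((I2 : ℝ) - I1)) := by
          gcongr

end

end Pool.Agent.N547.QG
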